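import Mathlib

/-!
# Countable closed fields
-/

set_option autoImplicit false

open Set

noncomputable section

namespace Pool.Agent.Y776

theorem countable_closure {s : Set ℂ} (hs : s.Countable) :
    (Subfield.closure s : Set ℂ).Countable := by
  have h1 : Cardinal.mk (Subfield.closure s) ≤ Cardinal.aleph0 := by
    refine (Subfield.cardinalMk_closure_le_max s).trans (max_le ?_ le_rfl)
    exact Cardinal.mk_le_aleph0_iff.2 hs.to_subtype
  have h2 : Countable (Subfield.closure s) := Cardinal.mk_le_aleph0_iff.1 h1
  exact Set.to_countable _

end Pool.Agent.Y776
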