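import Mathlib
import Pool.Agent.H73.G.R8.Y685.App
import Pool.Agent.H73.G.R8.Y776.Chain
import Pool.Agent.H73.G.R8.Y776.TorA

/-!
# Compatible derivations which do not kill the exponents
-/

set_option autoImplicit false

open Filter UpperHalfPlane
open scoped Topology PeriodPair

noncomputable section

namespace Pool.Agent.Y776

open H667R3 Pool.Agent.W245.EB Pool.Agent.Y685 MvPolynomial

variable {n s : ℕ}

/-- the absolute invariant -/
def jf (τ : ℂ) : ℂ := 1728 * (LC τ).g₂ ^ 3 / ((LC τ).g₂ ^ 3 - 27 * (LC τ).g₃ ^ 2)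

end Pool.Agent.Y776
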