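import Mathlib
import Pool.Agent.H73.G.R8.Y685.E1B
import Pool.Agent.H73.G.R8.Y776.TorA

/-!
# Exponentials: the action of `sl₂` removes the toric part
-/

set_option autoImplicit false

open Finset Module
open scoped Topology PeriodPair

noncomputable section

namespace Pool.Agent.Y776

open H667R3 Pool.Agent.W245.EB Pool.Agent.TH813.Ell Pool.Agent.Y685
open Pool.Agent.TH813.Rel (DF MK)

variable {L : PeriodPair} {D δ ε : Derivation ℚ ℂ ℂ} {x y z : ℂ}

/-- **Step 3**: the action of `sl₂` removes the toric part -/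
theorem RlnT.act {h : Nrm L D} (hX : IsX L D x y z δ) {ι κ : Type} [Fintype ι] [Fintype κ]
    {u f : κ → ℂ} {v d d' : ι → ℂ} (R : RlnT h u f v d d') :
    Rln h v (fun a => d a * x + d' a * y) (fun a => d a * z - d' a * x) := by
  have hx := hX.x0
  have hy := hX.y0
  have hz := hX.z0
  have hd1 : ∀ a, D (d a * x + d' a * y) = 0 := fun a => by
    rw [map_add, D_mul, D_mul, hx, hy, R.hd, R.hd']; ring
  have hd2 : ∀ a, D (d a * z - d' a * x) = 0 := fun a => by
    rw [map_sub, D_mul, D_mul, hx, hz, R.hd, R.hd']; ring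
  refine ⟨R.hC, R.hV, hd1, hd2, ?_⟩
  have hC := hX.hC
  have hK : ∀ u ∈ K1 L D, δ u ∈ K1 L D := fun u hu => hX.pres hu
  set q : ℂ := ∑ b, f b * u b with hq
  set r : ℂ := ∑ b, f b * lg δ (u b) with hr
  set F : ℂ := ∑ a, (Et L (d a) (d' a) * v a - Om L (d a) (d' a) * zt L (v a)) with hF
  have hfK : q + F ∈ K1 L D := R.mem
  set F' : ℂ := ∑ a, (Et L (d a * x + d' a * y) (d a * z - d' a * x) * v a -
    Om L (d a * x + d' a * y) (d a * z - d' a * x) * zt L (v a)) with hF'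
  set G : ℂ := ∑ a, (Et L (d a) (d' a) * om L δ (v a) +
    Om L (d a) (d' a) * (℘[L] (v a) * om L δ (v a))) with hG
  have hGK : G ∈ K1 L D := by
    refine sum_mem (fun a _ => add_mem (mul_mem ?_ ?_) (mul_mem ?_ ?_))
    · exact Et_K1 (cst_K1 (R.hd a)) (cst_K1 (R.hd' a))
    · exact (om_K1 h hC hK (R.hV a)).1
    · exact Om_K1 (cst_K1 (R.hd a)) (cst_K1 (R.hd' a))
    · exact (om_K1 h hC hK (R.hV a)).2
  have hrK : r ∈ K1 L D := by
    refine sum_mem (fun b _ => mul_mem (cst_K1 (R.hf b)) ?_)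
    exact div_mem (hK _ (R.he b)) (R.he b)
  have hDf : D F = ∑ a, (Et L (d a) (d' a) * vv L D (aa L) 1 (v a) +
      Om L (d a) (d' a) * (vv L D (aa L) 1 (v a) * ℘[L] (v a) - ℘'[L] (v a) / 2)) := by
    rw [hF, map_sum]
    exact sum_congr rfl (fun a _ => D_J (R.hC a) (R.hd a) (R.hd' a))
  have hDf' : D F' = ∑ a, (Et L (d a * x + d' a * y) (d a * z - d' a * x) *
      vv L D (aa L) 1 (v a) + Om L (d a * x + d' a * y) (d a * z - d' a * x) *
        (vv L D (aa L) 1 (v a) * ℘[L] (v a) - ℘'[L] (v a) / 2)) := by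
    rw [hF', map_sum]
    exact sum_congr rfl (fun a _ => D_J (R.hC a) (hd1 a) (hd2 a))
  have hDG : D G = ∑ a, (Et L (d a) (d' a) * δ (vv L D (aa L) 1 (v a)) +
      Om L (d a) (d' a) * δ (vv L D (aa L) 1 (v a) * ℘[L] (v a) - ℘'[L] (v a) / 2)) := by
    rw [hG, map_sum]
    exact sum_congr rfl (fun a _ => D_G h hX (R.hV a) (R.hd a) (R.hd' a))
  have hDq : δ (D q) = ∑ b, f b * δ (D (u b)) := by
    have e1 : D q = ∑ b, f b * D (u b) := by
      rw [hq, map_sum]
      refine sum_congr rfl (fun b _ => ?_)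
      rw [D_mul, R.hf b]
      ring
    rw [e1, map_sum]
    refine sum_congr rfl (fun b _ => ?_)
    rw [D_mul, hC _ (R.hf b)]
    ring
  have hDr : D r = ∑ b, f b * δ (D (u b)) := by
    rw [hr, map_sum]
    refine sum_congr rfl (fun b _ => ?_)
    rw [D_mul, R.hf b, D_lg (R.hu b), lg_of_K1 (R.he b) (hX.br h)]
    ring
  have hcomm : D (δ (q + F)) = δ (D (q + F)) := by
    have := hX.br h (q + F) hfK
    rw [Derivation.commutator_apply] at this
    linear_combination this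
  have hδDf : δ (D F) = D F' + D G := by
    rw [hDf, hDf', hDG, map_sum, ← sum_add_distrib]
    refine sum_congr rfl (fun a _ => ?_)
    rw [map_add, D_mul, D_mul, hX.d_Et (R.hd a) (R.hd' a), hX.d_Om (R.hd a) (R.hd' a)]
    ring
  have h0 : δ (q + F) - F' - G - r ∈ K1 L D := by
    apply cst_K1
    rw [map_sub, map_sub, map_sub, hcomm, map_add D, map_add δ, hδDf, hDq, hDr]
    ring
  have h1 : F' = δ (q + F) - G - r - (δ (q + F) - F' - G - r) := by ring
  rw [h1]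
  exact sub_mem (sub_mem (sub_mem (hK _ hfK) hGK) hrK) h0

/-- a relation which holds for both periods -/
theorem step3T {h : Nrm L D} (hS : Sl2 L D) {ι κ : Type} [Fintype ι] [Fintype κ]
    {u f : κ → ℂ} {v d d' : ι → ℂ}
    (R : RlnT h u f v d d') (hne : ¬ TR (PQ L) v d ∨ ¬ TR (PQ L) v d') :
    ∃ c : ι → ℂ, ¬ TR (PQ L) v c ∧ Rln h v c (fun _ => 0) ∧ Rln h v (fun _ => 0) c := by
  obtain ⟨δE, hE⟩ := hS.E
  obtain ⟨δF, hF⟩ := hS.F
  have aE : ∀ {d d' : ι → ℂ}, Rln h v d d' → Rln h v d' (fun _ => 0) := by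
    intro d d' R
    have := R.act hE
    simpa using this
  have aF : ∀ {d d' : ι → ℂ}, Rln h v d d' → Rln h v (fun _ => 0) d := by
    intro d d' R
    have := R.act hF
    simpa using this
  have RE : Rln h v d' (fun _ => 0) := by
    have := R.act hE
    simpa using this
  have RF : Rln h v (fun _ => 0) d := by
    have := R.act hF
    simpa using this
  rcases hne with hne | hne
  · exact ⟨d, hne, aE RF, RF⟩
  · exact ⟨d', hne, RE, aF RE⟩

/-- the form attached to a relation between logarithms -/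
def Wf {m : ℕ} (e w : Fin m → ℂ) (F : ℂ) (δ : Derivation ℚ ℂ ℂ) : ℂ :=
  ∑ k, e k * lg δ (w k) - δ F

theorem Wf_add {m : ℕ} (e w : Fin m → ℂ) (F : ℂ) (δ ε : Derivation ℚ ℂ ℂ) :
    Wf e w F (δ + ε) = Wf e w F δ + Wf e w F ε := by
  unfold Wf
  rw [Derivation.add_apply]
  have : ∑ k, e k * lg (δ + ε) (w k) = ∑ k, e k * lg δ (w k) + ∑ k, e k * lg ε (w k) := by
    rw [← sum_add_distrib]
    exact sum_congr rfl (fun k _ => by rw [lg_add_der]; ring)
  rw [this]
  ring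

theorem Wf_smul {m : ℕ} (e w : Fin m → ℂ) (F c : ℂ) (δ : Derivation ℚ ℂ ℂ) :
    Wf e w F (c • δ) = c * Wf e w F δ := by
  unfold Wf
  rw [Derivation.smul_apply, smul_eq_mul, mul_sub, mul_sum]
  congr 1
  exact sum_congr rfl (fun k _ => by rw [lg_smul_der]; ring)

/-- closedness of a logarithmic form -/
theorem lg_closed (δ ε : Derivation ℚ ℂ ℂ) (t : ℂ) :
    δ (lg ε t) - ε (lg δ t) = lg ⁅δ, ε⁆ t := by
  have h1 := Complex.exp_ne_zero t
  have e1 : lg ε t * Complex.exp t = ε (Complex.exp t) := by unfold lg; field_simp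
  have e2 : lg δ t * Complex.exp t = δ (Complex.exp t) := by unfold lg; field_simp
  have e3 : lg ⁅δ, ε⁆ t * Complex.exp t = δ (ε (Complex.exp t)) - ε (δ (Complex.exp t)) := by
    unfold lg
    rw [Derivation.commutator_apply]
    field_simp
  have f1 := congrArg δ e1
  have f2 := congrArg ε e2
  rw [D_mul] at f1 f2
  apply mul_right_cancel₀ h1
  rw [e3, ← f1, ← f2]
  linear_combination (lg ε t) * e2 - (lg δ t) * e1

theorem Dg_ne (h : Nrm L D) : D L.g₂ ≠ 0 := by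
  rw [h.hD]
  intro h2
  rcases mul_eq_zero.1 h2 with h3 | h3
  · apply g_ne_27 h
    linear_combination (3 / 2 : ℂ) * h3
  · exact h.g0 h3

/-- the purely toric case -/
theorem toric (h : Nrm L D) (hS : Sl2 L D) {s : ℕ} {t : Fin s → ℂ} (ht : ∀ l, Tf D (t l) = 0)
    (htind : ∀ q : Fin s → ℚ, D (∑ l, q l • t l) = 0 → q = 0) {a : Fin s → ℂ}
    (ha : ∀ l, D (a l) = 0) (ha0 : a ≠ 0)
    (hrel : ∀ δ ∈ DF (K1 L D), ∑ l, a l * Tf δ (t l) = 0) : False := by
  classical
  have hlog : ∀ δ ∈ DF (K1 L D), δ (∑ l, a l * t l) =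
      ∑ l, a l * (δ (Complex.exp (t l)) / Complex.exp (t l)) := by
    intro δ hδ
    rw [map_sum, ← sub_eq_zero, ← sum_sub_distrib, ← hrel δ hδ]
    refine sum_congr rfl (fun l _ => ?_)
    have e1 : δ (a l) = 0 := hδ _ (cst_K1 (ha l))
    rw [D_mul, e1, Tf, lg]
    ring
  have h10 := TH813.Ros.exact (K1 L D) a (fun l => Complex.exp (t l)) (fun l => cst_K1 (ha l))
    (fun l => Complex.exp_ne_zero _) _ hlog
  have h11 := TH813.Ros.rational (K1 L D) a (fun l => Complex.exp (t l)) (fun l => cst_K1 (ha l))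
    (fun l => Complex.exp_ne_zero _) (fun δ hδ => by rw [← hlog δ hδ, h10 δ hδ])
  obtain ⟨m, e, φ, hei, heK, hφ⟩ := exists_coordI (K := Cst D) a ha
  set w : Fin m → ℂ := fun k => ∑ l, φ k (a l) • t l with hw
  have hwT : ∀ k, Tf D (w k) = 0 := by
    intro k
    rw [hw, Tf_lin]
    exact sum_eq_zero (fun j _ => by rw [ht, mul_zero])
  have hwlg : ∀ k, ∀ δ ∈ DF (K1 L D), lg δ (w k) = 0 := by
    intro k δ hδ
    rw [hw, lg_lin]
    exact h11 (φ k) δ hδ
  have hwK : ∀ k, Complex.exp (w k) ∈ K1 L D := fun k => exp_K1 (hwlg k)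
  set F : ℂ := ∑ k, e k * w k with hF
  have heD : ∀ k, D (e k) = 0 := heK
  have hFa : F = ∑ l, a l * t l := by
    rw [hF, ← sum_coord' hφ]
    refine sum_congr rfl (fun k _ => ?_)
    rw [hw]
    simp only [Rat.smul_def]
  have hFK : F ∈ K1 L D := by
    intro δ hδC hδS
    rw [hFa]
    exact h10 δ (mem_DF_clo.2 ⟨hδC, hδS⟩)
  clear_value F
  -- the form
  set Ω : Derivation ℚ ℂ ℂ → ℂ := Wf e w F with hΩ
  have Ω1 : ∀ δ ∈ DF (K1 L D), Ω δ = 0 := by
    intro δ hδ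
    rw [hΩ, Wf, hδ _ hFK, sub_zero]
    exact sum_eq_zero (fun k _ => by rw [hwlg k δ hδ, mul_zero])
  have ΩD : Ω D = 0 := by
    rw [hΩ, Wf, hF, map_sum, ← sum_sub_distrib]
    refine sum_eq_zero (fun k _ => ?_)
    have := hwT k
    unfold Tf at this
    rw [D_mul, heD k]
    linear_combination (-e k) * this
  have ΩX : ∀ {x y z : ℂ} {δ : Derivation ℚ ℂ ℂ}, IsX L D x y z δ → D (Ω δ) = 0 := by
    intro x y z δ hX
    have hb := hX.br h
    have e1 : D (δ F) = δ (D F) := by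
      have := hb F hFK
      rw [Derivation.commutator_apply] at this
      linear_combination this
    have e2 : D F = ∑ k, e k * D (w k) := by
      rw [hF, map_sum]
      refine sum_congr rfl (fun k _ => ?_)
      rw [D_mul, heD k]
      ring
    rw [hΩ, Wf, map_sub, e1, e2, map_sum, map_sum, ← sum_sub_distrib]
    refine sum_eq_zero (fun k _ => ?_)
    rw [D_mul, D_mul, heD k, hX.hC _ (heD k), D_lg (hwT k), hwlg k _ hb]
    ring
  have Ωcl : ∀ δ ∈ DF (Cst D), ∀ ε ∈ DF (Cst D), δ (Ω ε) - ε (Ω δ) = Ω ⁅δ, ε⁆ := by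
    intro δ hδ ε hε
    rw [hΩ, Wf, Wf, Wf, map_sub, map_sub, map_sum, map_sum, Derivation.commutator_apply]
    have : ∑ k, e k * lg ⁅δ, ε⁆ (w k) = ∑ k, δ (e k * lg ε (w k)) - ∑ k, ε (e k * lg δ (w k)) := by
      rw [← sum_sub_distrib]
      refine sum_congr rfl (fun k _ => ?_)
      rw [D_mul, D_mul, hδ _ (heD k), hε _ (heD k), ← lg_closed]
      ring
    rw [this]
    ring
  obtain ⟨δE, hE⟩ := hS.E
  obtain ⟨δF, hF'⟩ := hS.F
  obtain ⟨δH, hH⟩ := hS.H
  have hbr : ∀ {δ ε ρ : Derivation ℚ ℂ ℂ} {x y z x' y' z' k : ℂ}, IsX L D x y z δ →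
      IsX L D x' y' z' ε → ⁅δ, ε⁆ - k • ρ ∈ DF (K1 L D) → k ≠ 0 → Ω ρ = 0 := by
    intro δ ε ρ x y z x' y' z' k h1 h2 h3 hk
    have h4 := Ωcl δ h1.hC ε h2.hC
    rw [h1.hC _ (ΩX h2), h2.hC _ (ΩX h1), sub_zero] at h4
    have h5 := Ω1 _ h3
    have h6 : Ω ⁅δ, ε⁆ = Ω (⁅δ, ε⁆ - k • ρ) + Ω (k • ρ) := by
      rw [hΩ, ← Wf_add]
      congr 1
      abel
    rw [← h4, h5, zero_add, hΩ, Wf_smul] at h6
    exact (mul_eq_zero.1 h6.symm).resolve_left hk
  have hEw1 := hE.w1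
  have hEw2 := hE.w2
  have hEe1 := hE.e1
  have hEe2 := hE.e2
  have hFw1 := hF'.w1
  have hFw2 := hF'.w2
  have hFe1 := hF'.e1
  have hFe2 := hF'.e2
  have hHw1 := hH.w1
  have hHw2 := hH.w2
  have hHe1 := hH.e1
  have hHe2 := hH.e2
  have brE : ⁅δH, δE⁆ - (2 : ℂ) • δE ∈ DF (K1 L D) := br_X h hH hE hE.hC hE.g
    (by rw [hEw1]; ring) (by rw [hEw2]; ring) (by rw [hEe1]; ring) (by rw [hEe2]; ring)
  have brF : ⁅δH, δF⁆ - (-2 : ℂ) • δF ∈ DF (K1 L D) := br_X h hH hF' hF'.hC hF'.g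
    (by rw [hFw1]; ring) (by rw [hFw2]; ring) (by rw [hFe1]; ring) (by rw [hFe2]; ring)
  have brH : ⁅δE, δF⁆ - (1 : ℂ) • δH ∈ DF (K1 L D) := br_X h hE hF' hH.hC hH.g
    (by rw [hHw1]; ring) (by rw [hHw2]; ring) (by rw [hHe1]; ring) (by rw [hHe2]; ring)
  have ΩE : Ω δE = 0 := hbr hH hE brE two_ne_zero
  have ΩF : Ω δF = 0 := hbr hH hF' brF (by norm_num)
  have ΩH : Ω δH = 0 := hbr hE hF' brH one_ne_zero
  -- all derivations over the constants
  have Ωall : ∀ ε ∈ DF (Cst D), Ω ε = 0 := by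
    intro ε₀ hε₀
    have hDg := Dg_ne h
    set κ : ℂ := ε₀ L.g₂ / D L.g₂ with hκ
    set ε : Derivation ℚ ℂ ℂ := ε₀ - κ • D with hε
    have hεC : ε ∈ DF (Cst D) := (DF _).sub_mem hε₀ ((DF _).smul_mem _ D_DF)
    have hεg : ε L.g₂ = 0 := by
      rw [hε, Derivation.sub_apply, Derivation.smul_apply, smul_eq_mul, hκ]
      field_simp
      ring
    have e00 : ε₀ = ε + κ • D := by rw [hε]; abel
    have e01 : Ω ε₀ = Ω ε := by
      conv_lhs => rw [e00, hΩ, Wf_add, Wf_smul]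
      rw [show Wf e w F D = 0 from ΩD, mul_zero, add_zero]
    rw [e01]
    obtain ⟨p1, p2, hp1, hp2⟩ := exists_sol L (ε L.ω₁) (ε (eta L L.ω₁))
    obtain ⟨q1, q2, hq1, hq2⟩ := exists_sol L (ε L.ω₂) (ε (eta L L.ω₂))
    have htr : p1 + q2 = 0 := by
      have h1 : ε (Lg L) = 0 := hεC _ (D_Lg h)
      have h2 : ε (Lg L) = (p1 + q2) * Lg L := by
        unfold Lg
        rw [map_sub, D_mul, D_mul, ← hp1, ← hp2, ← hq1, ← hq2]
        ring
      rw [h2] at h1
      exact (mul_eq_zero.1 h1).resolve_right Lg_ne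
    have hq2' : q2 = -p1 := by linear_combination htr
    rw [hq2'] at hq1 hq2
    set ε' : Derivation ℚ ℂ ℂ := p1 • δH + (q1 • δE + p2 • δF) with hε'
    have happ : ∀ u, ε' u = p1 * δH u + (q1 * δE u + p2 * δF u) := fun u => rfl
    have hε'C : ε' ∈ DF (Cst D) := (DF (Cst D)).add_mem ((DF _).smul_mem _ hH.hC)
      ((DF _).add_mem ((DF _).smul_mem _ hE.hC) ((DF _).smul_mem _ hF'.hC))
    have heq : ∀ s ∈ Gen L, ε s = ε' s := by
      intro s hs
      rw [happ]
      rcases hs with rfl | rfl | rfl | rfl | rfl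
      · rw [hεg, hH.g, hE.g, hF'.g]; ring
      · rw [← hp1, hHw1, hEw1, hFw1]; ring
      · rw [← hq1, hHw2, hEw2, hFw2]; ring
      · rw [← hp2, hHe1, hEe1, hFe1]; ring
      · rw [← hq2, hHe2, hEe2, hFe2]; ring
    have hdiff : ε - ε' ∈ DF (K1 L D) := by
      intro u hu
      rw [Derivation.sub_apply, der_ext hεC hε'C heq hu, sub_self]
    have e0 : ε = (ε - ε') + ε' := by abel
    have e1 : Ω ε = Ω (ε - ε') + Ω ε' := by
      conv_lhs => rw [e0, hΩ, Wf_add]
    have e2 : Ω ε' = 0 := by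
      rw [hε', hΩ, Wf_add, Wf_add, Wf_smul, Wf_smul, Wf_smul]
      rw [show Wf e w F δE = 0 from ΩE, show Wf e w F δF = 0 from ΩF,
        show Wf e w F δH = 0 from ΩH]
      ring
    rw [e1, Ω1 _ hdiff, e2, add_zero]
  -- Rosenlicht over the constants
  have hlog2 : ∀ δ : Derivation ℚ ℂ ℂ, (∀ u ∈ Cst D, δ u = 0) → δ F =
      ∑ k, e k * (δ (Complex.exp (w k)) / Complex.exp (w k)) := by
    intro δ hδ
    have h1 := Ωall δ hδ
    rw [hΩ, Wf] at h1
    unfold lg at h1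
    linear_combination -h1
  have h20 := TH813.Ros.exact (Cst D) e (fun k => Complex.exp (w k)) heK
    (fun k => Complex.exp_ne_zero _) _ hlog2
  have h21 := TH813.Ros.rational (Cst D) e (fun k => Complex.exp (w k)) heK
    (fun k => Complex.exp_ne_zero _) (fun δ hδ => by rw [← hlog2 δ hδ, h20 δ hδ])
  -- dual functionals
  have hDw : ∀ k, D (w k) = 0 := by
    intro k
    obtain ⟨ψ, hψ⟩ : ∃ ψ : ℂ →ₗ[ℚ] ℚ, ∀ j, ψ (e j) = if j = k then 1 else 0 := by
      obtain ⟨g, hg⟩ := LinearMap.exists_extend (p := Submodule.span ℚ (Set.range e))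
        ((Basis.span hei).coord k)
      refine ⟨g, fun j => ?_⟩
      have h1 := LinearMap.congr_fun hg ⟨e j, Submodule.subset_span ⟨j, rfl⟩⟩
      have h2 : (⟨e j, Submodule.subset_span ⟨j, rfl⟩⟩ : Submodule.span ℚ (Set.range e)) =
          Basis.span hei j := by
        apply Subtype.ext
        rw [Basis.span_apply]
      rw [LinearMap.comp_apply, Submodule.subtype_apply] at h1
      rw [h1, h2, Basis.coord_apply, Basis.repr_self, Finsupp.single_apply]
    have h1 := h21 ψ D (fun u hu => hu)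
    simp only [hψ] at h1
    have h2 : lg D (w k) = 0 := by
      rw [← h1]
      unfold lg
      rw [Finset.sum_eq_single k]
      · simp
      · intro j _ hj
        simp [hj]
      · intro hk
        exact absurd (mem_univ k) hk
    have h3 := hwT k
    unfold Tf at h3
    rw [h2, sub_zero] at h3
    exact h3
  apply ha0
  funext l
  rw [hφ l]
  refine sum_eq_zero (fun k _ => ?_)
  have h1 : (fun l => φ k (a l)) = 0 := htind _ (hDw k)
  have h2 : φ k (a l) = 0 := congrFun h1 l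
  rw [h2]
  simp

/-- **Part C** with exponentials -/
theorem partCT (h : Nrm L D) (hS : Sl2 L D) {s n : ℕ} {t : Fin s → ℂ} (ht : ∀ l, Tf D (t l) = 0)
    (htind : ∀ q : Fin s → ℚ, D (∑ l, q l • t l) = 0 → q = 0)
    {p : Fin n → ℂ} (hp : ∀ i, p i ∈ Cm h)
    (hind : LinearIndependent ℚ (fun i => (PQ L).mkQ (p i)))
    (hr : (MK (K1 L D)).eRk (ET t ∪ EP L p) < ((s + 2 * n : ℕ) : ℕ∞)) :
    ∃ (s : ℕ) (e w : Fin s → ℂ) (a b : ℂ), Bad h e w a b := by
  classical
  obtain ⟨a, c, c', ha, hc, hc', hne, hrel⟩ := step1T h ht hp hr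
  by_cases hcc : c = 0 ∧ c' = 0
  · exfalso
    obtain ⟨rfl, rfl⟩ := hcc
    have ha0 : a ≠ 0 := by
      rcases hne with h1 | h1 | h1
      · exact h1
      · exact absurd rfl h1
      · exact absurd rfl h1
    refine toric h hS ht htind ha ha0 (fun δ hδ => ?_)
    have h1 := hrel δ hδ
    have h2 : ∑ i, Pf L (Om L ((0 : Fin n → ℂ) i) ((0 : Fin n → ℂ) i))
        (Et L ((0 : Fin n → ℂ) i) ((0 : Fin n → ℂ) i)) δ (p i) = 0 := by
      refine sum_eq_zero (fun i _ => ?_)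
      unfold Pf Om Et
      simp
    rw [h2, add_zero] at h1
    exact h1
  have hne' : c ≠ 0 ∨ c' ≠ 0 := by
    by_contra hcon
    push Not at hcon
    exact hcc hcon
  obtain ⟨ι, κ, _, _, u, f, v, d, d', R, hneR⟩ := step2T h ht hp hind ha hc hc' hne' hrel
  obtain ⟨c, hT, R1, R2⟩ := step3T hS R hneR
  obtain ⟨hK1, hK2⟩ := step3' R1 R2
  have hcc : ∀ a, D (c a) = 0 := R1.hd
  obtain ⟨t1, t2, ht1, ht2, hε⟩ := step4 h hS R1.hC R1.hV hcc rfl rfl hK1 hK2
  obtain ⟨s, e, φ, hei, heK, hφ⟩ := exists_coordI (K := Cst D) c hcc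
  set w : Fin s → ℂ := fun k => ∑ a, φ k (c a) • v a with hw
  have hom : ∀ k, ∀ ε ∈ DF (K0 L D), om L ε (w k) = 0 := by
    intro k ε hε'
    have h2 : ε L.g₂ = 0 := hε' _ g_K0
    have : om L ε (w k) = ∑ a, (φ k (c a) : ℂ) * om L ε (v a) := om_linI h h2 _ _
    rw [this]
    exact rosI h hcc _ (fun ε hε' => (hε ε hε').1) (φ k) ε hε'
  have heD : ∀ k, D (e k) = 0 := heK
  refine ⟨s, e, w, t1, t2, hei, heK, ht1, ht2, fun k => ?_, hom, ?_, ?_, ?_⟩
  · exact Submodule.sum_mem _ (fun a _ => Submodule.smul_mem _ _ (R1.hC a))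
  · by_contra hcon
    push Not at hcon
    apply hT
    intro ψ
    have h1 : ∑ k, ψ (e k) • w k = ∑ a, ψ (c a) • v a := by
      have h2 : ∀ k, ψ (e k) • w k = ∑ a, (ψ (e k) * φ k (c a)) • v a := by
        intro k
        rw [hw, smul_sum]
        exact sum_congr rfl (fun a _ => by rw [smul_smul])
      rw [sum_congr rfl (fun k _ => h2 k), sum_comm]
      refine sum_congr rfl (fun a _ => ?_)
      rw [← sum_smul]
      congr 1
      conv_rhs => rw [hφ a]
      rw [map_sum]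
      refine sum_congr rfl (fun k _ => ?_)
      rw [← Rat.smul_def, map_smul, smul_eq_mul, mul_comm]
    rw [← h1]
    exact Submodule.sum_mem _ (fun k _ => Submodule.smul_mem _ _ (hcon k))
  · have h1 : ∑ k, e k * w k = ∑ a, c a * v a := by
      rw [← sum_coordI hφ]
      refine sum_congr rfl (fun k _ => ?_)
      rw [hw]
      simp only [Rat.smul_def]
    rw [h1]
    intro ε hεC hεS
    have hε0 : ε ∈ DF (K0 L D) := mem_DF_clo.2 ⟨hεC, hεS⟩
    rw [(hε ε hε0).1, O1, ← sum_coordI hφ (fun a => om L ε (v a))]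
    refine sum_eq_zero (fun k _ => ?_)
    have := hom k ε hε0
    rw [hw, om_linI h (hε0 _ g_K0)] at this
    rw [this, mul_zero]
  · intro ε hεC hεS
    have hε0 : ε ∈ DF (K0 L D) := mem_DF_clo.2 ⟨hεC, hεS⟩
    have h3 := (hε ε hε0).2
    rw [map_sub, map_sum] at h3
    rw [map_sub, map_sum]
    have h4 : ∑ k, ε (e k * zt L (w k)) = ∑ a, c a * et L ε (v a) := by
      rw [← sum_coordI hφ (fun a => et L ε (v a))]
      refine sum_congr rfl (fun k _ => ?_)
      have h5 : et L ε (w k) = ∑ a, (φ k (c a) : ℂ) * et L ε (v a) :=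
        et_linI h (hε0 _ g_K0) _ _
      rw [← h5, D_mul, hεC _ (heD k), mul_zero, add_zero, et, hom k ε hε0, mul_zero, add_zero]
    have h6 : ∑ a, ε (c a * zt L (v a)) = ∑ a, c a * et L ε (v a) + O2 L v c ε := by
      rw [O2, ← sub_eq_add_neg, ← sum_sub_distrib]
      refine sum_congr rfl (fun a _ => ?_)
      rw [D_mul, hεC _ (hcc a), et]
      ring
    rw [h4]
    rw [h6] at h3
    linear_combination h3

end Pool.Agent.Y776
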