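import Mathlib
import Pool.Agent.H73.G.R8.Y685.ConstC
import Pool.Agent.H73.G.R8.Y776.Cpt
import Pool.Agent.H73.G.R8.Y776.TorB

/-!
# The rank at a point over a countable closed field
-/

set_option autoImplicit false

open Filter Module
open scoped Topology PeriodPair

noncomputable section

namespace Pool.Agent.Y776

open H667R3 Pool.Agent.W245.EB Pool.Agent.Y685 Pool.Agent.TH813.Ell
open Pool.Agent.TH813.Rel (DF MK)

variable {n s : ℕ}

/-- ranks in a tower of fields -/
theorem rank_tower {F K : IntermediateField ℚ ℂ} (hFK : F ≤ K) {m : ℕ} {x : Fin m → ℂ}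
    (hx : AlgebraicIndependent F x) (hxK : ∀ i, x i ∈ K) {B : Set ℂ} {r : ℕ}
    (hr : (r : ℕ∞) ≤ (MK K).eRk B) : ((m + r : ℕ) : ℕ∞) ≤ (MK F).eRk (Set.range x ∪ B) := by
  classical
  obtain ⟨I, hIB, hI, hIc⟩ := Matroid.le_eRk_iff.1 hr
  let _ : Algebra F K := (IntermediateField.inclusion hFK).toRingHom.toAlgebra
  have : IsScalarTower F K ℂ := IsScalarTower.of_algebraMap_eq (fun _ => rfl)
  have hy : AlgebraicIndependent K (fun i : I => (i : ℂ)) := hI
  have h1 : AlgebraicIndependent F (Sum.elim (fun i : I => (i : ℂ)) x) := by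
    refine hx.sumElim_of_tower (S := K) ?_ hy
    rintro _ ⟨i, rfl⟩
    exact ⟨⟨x i, hxK i⟩, rfl⟩
  have h2 : (MK F).Indep (Set.range (Sum.elim (fun i : I => (i : ℂ)) x)) := by
    rw [AlgebraicIndependent.matroid_indep_iff]
    exact AlgebraicIndependent.coe_range h1
  have h3 : (Set.range (Sum.elim (fun i : I => (i : ℂ)) x)).encard = ((m + r : ℕ) : ℕ∞) := by
    have hinj := h1.injective
    rw [← Set.image_univ, hinj.encard_image, Set.encard_univ, ENat.card_sum]
    have e1 : ENat.card I = (r : ℕ∞) := hIc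
    rw [e1, ENat.card_eq_coe_fintype_card, Fintype.card_fin, add_comm]
    push_cast
    rfl
  rw [← h3, ← h2.eRk_eq_encard]
  apply (MK F).eRk_mono
  rintro _ ⟨i | i, rfl⟩
  · exact Or.inr (hIB i.2)
  · exact Or.inl ⟨i, rfl⟩

/-- the value of the constant `be` -/
def be0 : ℂ := be Complex.I

theorem be_eq {τ : ℂ} (h : 0 < τ.im) : be τ = be0 := be_const h (by simp)

/-- the field generated by the constant -/
def k0 : Subfield ℂ := Subfield.closure {be0}

theorem k0_countable : (k0 : Set ℂ).Countable := countable_closure (Set.countable_singleton _)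

/-- the exceptional values of the first kind -/
def T0 : Set ℂ := Classical.choose (algInd_yy k0 k0_countable)

theorem T0_spec : T0.Countable ∧ ∀ τ : ℂ, 0 < τ.im → τ ∉ T0 → AlgebraicIndependent k0 (yy τ) :=
  Classical.choose_spec (algInd_yy k0 k0_countable)

/-- the conclusion of the analytic part -/
def NoBad : Prop := ∀ (k : Subfield ℂ) (τ l : ℂ) (n : ℕ) (z : Fin n → ℂ)
  (D : Derivation ℚ ℂ ℂ) (h : Gp k τ l z D) (s : ℕ) (e w : Fin s → ℂ) (a b : ℂ),
  ¬ Bad h.nrm e w a b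

/-- the points are independent modulo the periods of the normalized lattice -/
theorem ind_Lh {k : Subfield ℂ} {τ l : ℂ} {z : Fin n → ℂ} {D : Derivation ℚ ℂ ℂ}
    (h : Gp k τ l z D)
    (hz : ∀ q : Fin n → ℚ, ∀ a b : ℚ, ∑ i, (q i : ℂ) * z i = a + b * τ → q = 0) :
    LinearIndependent ℚ (fun i => (PQ h.Lh).mkQ (l * z i)) := by
  rw [Fintype.linearIndependent_iff]
  intro q hq i
  have h1 : (PQ h.Lh).mkQ (∑ i, q i • (l * z i)) = 0 := by
    rw [map_sum]
    simpa only [map_smul] using hq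
  rw [Submodule.mkQ_apply, Submodule.Quotient.mk_eq_zero, PQ, Submodule.mem_span_pair] at h1
  obtain ⟨a, b, hab⟩ := h1
  rw [h.o1, h.o2] at hab
  have h2 := hz q a b (by
    have hl := h.l0
    apply mul_left_cancel₀ hl
    simp only [Rat.smul_def] at hab
    rw [Finset.mul_sum]
    have : ∀ i, l * ((q i : ℂ) * z i) = (q i : ℂ) * (l * z i) := fun i => by ring
    rw [Finset.sum_congr rfl (fun i _ => this i), ← hab]
    ring)
  exact congrFun h2 i

/-- **The rank at a generic point** -/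
theorem rank_gp (hNB : NoBad) {F : IntermediateField ℚ ℂ} {τ l : ℂ} {z : Fin n → ℂ}
    {D : Derivation ℚ ℂ ℂ} (h : Gp k0 τ l z D) (hF : ∀ x ∈ F, D x = 0) {t : Fin s → ℂ}
    (ht : ∀ i, Tf D (t i) = 0) (htind : ∀ q : Fin s → ℚ, D (∑ i, q i • t i) = 0 → q = 0)
    (hz2 : ∀ i, 2 * z i ∉ (LC τ).lattice)
    (hz : ∀ q : Fin n → ℚ, ∀ a b : ℚ, ∑ i, (q i : ℂ) * z i = a + b * τ → q = 0) :
    ((4 + (s + 2 * n) : ℕ) : ℕ∞) ≤ (MK F).eRk
      (Set.range (yy τ) ∪ (ET t ∪ EP h.Lh (fun i => l * z i))) := by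
  have hb : be τ * l ^ 2 ≠ 0 := mul_ne_zero h.b0 (pow_ne_zero 2 h.l0)
  have hFC : F ≤ Cst h.Dh := by
    intro x hx
    rw [h.Cst_Dh]
    exact hF x hx
  have hCK : Cst h.Dh ≤ K1 h.Lh h.Dh := fun x hx => cst_K1 hx
  have hrk : ((s + 2 * n : ℕ) : ℕ∞) ≤
      (MK (K1 h.Lh h.Dh)).eRk (ET t ∪ EP h.Lh (fun i => l * z i)) := by
    by_contra hcon
    push Not at hcon
    obtain ⟨m, e, w, a, b, hB⟩ := partCT h.nrm h.sl2 (t := t) (fun i => by
        have e1 : h.Dh = (1 / (be τ * l ^ 2)) • D := rfl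
        rw [e1, Tf_smul_der, ht, mul_zero]) (fun q hq => by
        apply htind
        rw [h.Dh_apply, div_eq_zero_iff] at hq
        exact hq.resolve_right hb) (p := fun i => l * z i)
      (fun i => h.mem_Cm' (hz2 i)) (ind_Lh h hz) hcon
    exact hNB _ _ _ _ _ _ h _ _ _ _ _ hB
  -- independence of the four functions
  have hai : AlgebraicIndependent F (yy τ) := by
    have h2 := h.Dy.algInd
    have hFC' : F ≤ Cst D := fun x hx => hF x hx
    let _ : Algebra F (Cst D) := (IntermediateField.inclusion hFC').toRingHom.toAlgebra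
    have : IsScalarTower F (Cst D) ℂ := IsScalarTower.of_algebraMap_eq (fun _ => rfl)
    exact h2.restrictScalars (K := Cst D) (algebraMap F (Cst D)).injective
  refine rank_tower (hFC.trans hCK) hai ?_ hrk
  have hlK : l ∈ K1 h.Lh h.Dh := by
    have := ω₁_K1 (L := h.Lh) (D := h.Dh)
    rwa [h.o1] at this
  have hl0 := h.l0
  have hτK : τ ∈ K1 h.Lh h.Dh := by
    have h2 := ω₂_K1 (L := h.Lh) (D := h.Dh)
    rw [h.o2] at h2
    have h3 : (l * τ) / l = τ := by field_simp
    have h4 := div_mem h2 hlK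
    rwa [h3] at h4
  have hg2K : (LC τ).g₂ ∈ K1 h.Lh h.Dh := by
    have h2 := g_K1 (L := h.Lh) (D := h.Dh)
    have h3 : h.Lh.g₂ * l ^ 4 = (LC τ).g₂ := by
      rw [h.gh]
      field_simp
    have h4 := mul_mem h2 (pow_mem hlK 4)
    rwa [h3] at h4
  intro i
  fin_cases i
  · exact hτK
  · have h2 := η₁_K1 (L := h.Lh) (D := h.Dh)
    rw [h.n1] at h2
    have h3 : h1 τ / l * l = h1 τ := by field_simp
    have h4 := mul_mem h2 hlK
    rwa [h3] at h4
  · exact hg2K
  · change (LC τ).g₃ ∈ _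
    rw [← h.hl]
    exact mul_mem (pow_mem hlK 2) hg2K

end Pool.Agent.Y776
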