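import Mathlib
import Pool.Agent.H73.G.R8.Y119.PG.PlcMain
import Pool.Agent.H73.G.R8.Y685.E1J
import Pool.Agent.H73.G.R8.Y776.Fin

/-!
# General lattices
-/

set_option autoImplicit false

open Filter Module
open scoped Topology PeriodPair

noncomputable section

namespace Pool.Agent.Y776

open H667R3 Pool.Agent.W245.EB Pool.Agent.Y685 Pool.Agent.TH813.Ell
open Pool.Agent.TH813.Rel (DF MK subset_cl rk_le_of_subset_cl)

variable {n s : ℕ}

/-- the analytic part (`task_P` is due to helper119, `no_Bad` to helper685) -/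
theorem noBad : NoBad := fun _ _ _ _ _ _ h _ _ _ _ _ =>
  h.no_Bad Pool.Agent.Y119.PG.task_P

end Pool.Agent.Y776
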